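import Pool.Agent.NPX.Stmts

/-!
# Squad NPX, row PHN: the points of the supports as countably many measurable functions
-/

set_option autoImplicit false

open MeasureTheory Set Topology Pointwise

namespace Pool.Agent.NPX.H81

open Pool.Agent.LSG Pool.Agent.NPX

/-- a countable base, indexed by the natural numbers -/
theorem exists_base (X : Type) [TopologicalSpace X] [SecondCountableTopology X] :
    ∃ b : ℕ → Set X, (∀ n, IsOpen (b n)) ∧
      ∀ (x : X) (U : Set X), IsOpen U → x ∈ U → ∃ n, x ∈ b n ∧ b n ⊆ U := by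
  obtain ⟨f, hf⟩ := Set.countable_iff_exists_subset_range.1
    (TopologicalSpace.countable_countableBasis X)
  refine ⟨fun n => interior (f n), fun n => isOpen_interior, ?_⟩
  intro x U hU hx
  obtain ⟨V, hV, hxV, hVU⟩ :=
    (TopologicalSpace.isBasis_countableBasis X).exists_subset_of_mem_open hx hU
  obtain ⟨n, hn⟩ := hf hV
  have hVo : IsOpen V := TopologicalSpace.isOpen_of_mem_countableBasis hV
  refine ⟨n, ?_, ?_⟩
  · show x ∈ interior (f n)
    rw [hn, hVo.interior_eq]
    exact hxV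
  · show interior (f n) ⊆ U
    rw [hn, hVo.interior_eq]
    exact hVU

/-- general version: `Gs` a measurable space, `X` a second countable space, `c x` finitely supported -/
theorem aux {Gs X K : Type} [MeasurableSpace Gs] [TopologicalSpace X] [SecondCountableTopology X]
    [T2Space X] [TopologicalSpace K] [MeasurableSpace K] [BorelSpace K] [Nonempty K]
    (c : Gs → X →₀ ℝ) (pr : X → K) (hpr : Continuous pr)
    (hZ : ∀ O : Set X, IsOpen O → MeasurableSet {x | ∃ a ∈ O, c x a ≠ 0}) :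
    ∃ (E : ℕ → Set Gs) (φ : ℕ → Gs → K), (∀ n, MeasurableSet (E n) ∧ Measurable (φ n)) ∧
      ∀ (x : Gs) (z : K), (∃ a : X, c x a ≠ 0 ∧ pr a = z) ↔ ∃ n, x ∈ E n ∧ φ n x = z := by
  classical
  obtain ⟨b, hb, hbase⟩ := exists_base X
  let E : ℕ → Set Gs := fun n => {x | ∃ a, (a ∈ b n ∧ c x a ≠ 0) ∧
    ∀ a', a' ∈ b n → c x a' ≠ 0 → a' = a}
  have hE : ∀ n, MeasurableSet (E n) := by
    intro n
    have he : E n = {x | ∃ a ∈ b n, c x a ≠ 0} \
        ⋃ (k : ℕ), ⋃ (l : ℕ), ⋃ (_ : b k ⊆ b n ∧ b l ⊆ b n ∧ Disjoint (b k) (b l)),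
          ({x | ∃ a ∈ b k, c x a ≠ 0} ∩ {x | ∃ a ∈ b l, c x a ≠ 0}) := by
      ext x
      constructor
      · rintro ⟨a, ⟨ha1, ha2⟩, ha3⟩
        refine ⟨⟨a, ha1, ha2⟩, ?_⟩
        intro hx
        simp only [Set.mem_iUnion] at hx
        obtain ⟨k, l, ⟨hk, hl, hd⟩, ⟨a1, h1, h1'⟩, ⟨a2, h2, h2'⟩⟩ := hx
        have e1 := ha3 a1 (hk h1) h1'
        have e2 := ha3 a2 (hl h2) h2'
        rw [e1] at h1
        rw [e2] at h2
        exact Set.disjoint_left.1 hd h1 h2
      · rintro ⟨⟨a, ha1, ha2⟩, hx⟩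
        refine ⟨a, ⟨ha1, ha2⟩, ?_⟩
        intro a' ha1' ha2'
        by_contra hne
        apply hx
        obtain ⟨U, V, hU, hV, haU, haV, hUV⟩ := t2_separation hne
        obtain ⟨k, hk1, hk2⟩ := hbase a' (U ∩ b n) (hU.inter (hb n)) ⟨haU, ha1'⟩
        obtain ⟨l, hl1, hl2⟩ := hbase a (V ∩ b n) (hV.inter (hb n)) ⟨haV, ha1⟩
        simp only [Set.mem_iUnion]
        refine ⟨k, l, ⟨fun y hy => (hk2 hy).2, fun y hy => (hl2 hy).2, ?_⟩,
          ⟨a', hk1, ha2'⟩, ⟨a, hl1, ha2⟩⟩
        exact hUV.mono (fun y hy => (hk2 hy).1) (fun y hy => (hl2 hy).1)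
    rw [he]
    refine (hZ _ (hb n)).diff ?_
    refine MeasurableSet.iUnion fun k => MeasurableSet.iUnion fun l => MeasurableSet.iUnion fun _ => ?_
    exact (hZ _ (hb k)).inter (hZ _ (hb l))
  let z0 : K := Classical.arbitrary K
  let φ : ℕ → Gs → K := fun n x => if h : x ∈ E n then pr h.choose else z0
  have hφ : ∀ n x (h : x ∈ E n) a, a ∈ b n → c x a ≠ 0 → φ n x = pr a := by
    intro n x h a ha1 ha2
    have h1 : φ n x = pr h.choose := dif_pos h
    rw [h1, h.choose_spec.2 a ha1 ha2]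
  have hφm : ∀ n, Measurable (φ n) := by
    intro n
    refine measurable_of_isOpen fun W hW => ?_
    have hO : IsOpen (b n ∩ pr ⁻¹' W) := (hb n).inter (hW.preimage hpr)
    have hpos : ∀ x ∈ E n, (φ n x ∈ W ↔ x ∈ {x | ∃ a ∈ b n ∩ pr ⁻¹' W, c x a ≠ 0}) := by
      intro x hx
      obtain ⟨a, ⟨ha1, ha2⟩, ha3⟩ := hx
      have hx : x ∈ E n := ⟨a, ⟨ha1, ha2⟩, ha3⟩
      rw [hφ n x hx a ha1 ha2]
      constructor
      · intro h
        exact ⟨a, ⟨ha1, h⟩, ha2⟩
      · rintro ⟨a', ⟨h1, h2⟩, h3⟩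
        rw [← ha3 a' h1 h3]
        exact h2
    by_cases h0 : z0 ∈ W
    · have he : φ n ⁻¹' W = (E n ∩ {x | ∃ a ∈ b n ∩ pr ⁻¹' W, c x a ≠ 0}) ∪ (E n)ᶜ := by
        ext x
        by_cases hx : x ∈ E n
        · constructor
          · intro h
            exact Or.inl ⟨hx, (hpos x hx).1 h⟩
          · rintro (h | h)
            · exact (hpos x hx).2 h.2
            · exact absurd hx h
        · constructor
          · intro _
            exact Or.inr hx
          · intro _
            show φ n x ∈ W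
            have h1 : φ n x = z0 := dif_neg hx
            rw [h1]
            exact h0
      rw [he]
      exact ((hE n).inter (hZ _ hO)).union (hE n).compl
    · have he : φ n ⁻¹' W = (E n ∩ {x | ∃ a ∈ b n ∩ pr ⁻¹' W, c x a ≠ 0}) := by
        ext x
        by_cases hx : x ∈ E n
        · constructor
          · intro h
            exact ⟨hx, (hpos x hx).1 h⟩
          · intro h
            exact (hpos x hx).2 h.2
        · constructor
          · intro h
            have h' : φ n x ∈ W := h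
            have h1 : φ n x = z0 := dif_neg hx
            rw [h1] at h'
            exact absurd h' h0
          · intro h
            exact absurd h.1 hx
      rw [he]
      exact (hE n).inter (hZ _ hO)
  refine ⟨E, φ, fun n => ⟨hE n, hφm n⟩, ?_⟩
  intro x z
  constructor
  · rintro ⟨a, ha, rfl⟩
    have hfin : IsOpen (((c x).support.erase a : Finset X) : Set X)ᶜ :=
      ((c x).support.erase a).finite_toSet.isClosed.isOpen_compl
    obtain ⟨n, hn1, hn2⟩ := hbase a _ hfin (by simp)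
    have hx : x ∈ E n := by
      refine ⟨a, ⟨hn1, ha⟩, ?_⟩
      intro a' h1 h2
      by_contra hne
      have h3 := hn2 h1
      apply h3
      rw [Finset.mem_coe, Finset.mem_erase]
      exact ⟨hne, Finsupp.mem_support_iff.2 h2⟩
    exact ⟨n, hx, hφ n x hx a hn1 ha⟩
  · rintro ⟨n, hx, rfl⟩
    obtain ⟨a, ⟨ha1, ha2⟩, ha3⟩ := hx
    have hx : x ∈ E n := ⟨a, ⟨ha1, ha2⟩, ha3⟩
    exact ⟨a, ha2, (hφ n x hx a ha1 ha2).symm⟩

theorem phn (lsc : LscStmt) : PhnStmt := by
  intro K _ _ _ _ _ _ _ G p q T c hTc i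
  let _ := TopologicalSpace.metrizableSpaceMetric K
  have : SecondCountableTopology K := inferInstance
  have : PolishSpace K := inferInstance
  have : SecondCountableTopology (G × Fin p) := inferInstance
  obtain ⟨E, φ, h1, h2⟩ := aux (Gs := G) (X := G × Fin p) (K := K) (fun x => c (x, i))
    (fun a => (a.1 : K)) (continuous_subtype_val.comp continuous_fst) (by
      intro O hO
      have h := lsc (G × Fin p) (G × Fin q) T c hTc O hO
      have h' : IsOpen ((fun x : G => (x, i)) ⁻¹' {y | ∃ a ∈ O, c y a ≠ 0}) :=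
        h.preimage (Continuous.prodMk_left i)
      exact h'.measurableSet)
  have hE : ∀ n, ∃ E' : Set K, MeasurableSet E' ∧ (fun x : G => (x : K)) ⁻¹' E' = E n :=
    fun n => (h1 n).1
  have hφ : ∀ n, ∃ φ' : K → K, Measurable φ' ∧ φ n = φ' ∘ (fun x : G => (x : K)) := by
    intro n
    exact (h1 n).2.exists_eq_measurable_comp
  choose E' hE1 hE2 using hE
  choose φ' hφ1 hφ2 using hφ
  refine ⟨E', φ', fun n => ⟨hE1 n, hφ1 n⟩, ?_⟩
  intro x z
  rw [h2 x z]
  constructor
  · rintro ⟨n, hn1, hn2⟩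
    refine ⟨n, ?_, ?_⟩
    · rw [← hE2 n] at hn1
      exact hn1
    · rw [← hn2, hφ2 n]
      rfl
  · rintro ⟨n, hn1, hn2⟩
    refine ⟨n, ?_, ?_⟩
    · rw [← hE2 n]
      exact hn1
    · rw [← hn2, hφ2 n]
      rfl

end Pool.Agent.NPX.H81
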